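import Mathlib

set_option autoImplicit false

namespace Pool.Agent.Results.MP_87489e_co.MassMin

open MeasureTheory Set Pointwise

/-- fibre over `y` -/
def fib {n : ℕ} (K : Set (Fin (n + 1) → ℝ)) (y : Fin n → ℝ) : Set ℝ :=
  {t | (Fin.cons t y : Fin (n + 1) → ℝ) ∈ K}

/-- projection along the first coordinate -/
def proj {n : ℕ} (K : Set (Fin (n + 1) → ℝ)) : Set (Fin n → ℝ) :=
  (fun x : Fin (n + 1) → ℝ => fun i => x (Fin.succ i)) '' K

theorem fib_eq {n : ℕ} (K : Set (Fin (n + 1) → ℝ)) (y : Fin n → ℝ) :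
    (fun x : ℝ => (x, y)) ⁻¹'
      ((MeasurableEquiv.piFinSuccAbove (fun _ : Fin (n + 1) => ℝ) 0).symm ⁻¹' K) = fib K y := by
  ext t
  have h : (MeasurableEquiv.piFinSuccAbove (fun _ : Fin (n + 1) => ℝ) 0).symm (t, y) =
      Fin.cons t y := Fin.insertNth_zero' t y
  show (MeasurableEquiv.piFinSuccAbove (fun _ : Fin (n + 1) => ℝ) 0).symm (t, y) ∈ K ↔ _
  rw [h]
  rfl

theorem vol_fib {n : ℕ} {K : Set (Fin (n + 1) → ℝ)} (hK : MeasurableSet K) :
    volume K = ∫⁻ y : Fin n → ℝ, volume (fib K y) := by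
  have h1 := (volume_preserving_piFinSuccAbove (fun _ : Fin (n + 1) => ℝ) 0).symm
  have h2 := h1.measure_preimage hK.nullMeasurableSet
  rw [← h2, Measure.volume_eq_prod, Measure.prod_apply_symm]
  · apply lintegral_congr
    intro y
    rw [fib_eq]
  · exact h1.measurable hK

theorem meas_fib {n : ℕ} {K : Set (Fin (n + 1) → ℝ)} (hK : MeasurableSet K) :
    Measurable fun y : Fin n → ℝ => volume (fib K y) := by
  have h1 := (volume_preserving_piFinSuccAbove (fun _ : Fin (n + 1) => ℝ) 0).symm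
  have h2 := measurable_measure_prodMk_right (μ := (volume : Measure ℝ))
    (h1.measurable hK)
  simp only [fib_eq] at h2
  exact h2

theorem mem_fib_iff {n : ℕ} {K : Set (Fin (n + 1) → ℝ)} {y : Fin n → ℝ} :
    y ∈ proj K ↔ (fib K y).Nonempty := by
  constructor
  · rintro ⟨x, hx, rfl⟩
    refine ⟨x 0, ?_⟩
    show (Fin.cons (x 0) (Fin.tail x) : Fin (n + 1) → ℝ) ∈ K
    rwa [Fin.cons_self_tail]
  · rintro ⟨t, ht⟩
    exact ⟨_, ht, by ext i; simp⟩

theorem continuous_cons {n : ℕ} (y : Fin n → ℝ) :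
    Continuous fun t : ℝ => (Fin.cons t y : Fin (n + 1) → ℝ) := by
  apply continuous_pi
  intro i
  refine Fin.cases ?_ ?_ i
  · simp only [Fin.cons_zero]
    exact continuous_id
  · intro j
    simp only [Fin.cons_succ]
    exact continuous_const

theorem cons_comb {n : ℕ} (y y' : Fin n → ℝ) (t t' a b : ℝ) :
    a • (Fin.cons t y : Fin (n + 1) → ℝ) + b • (Fin.cons t' y' : Fin (n + 1) → ℝ) =
      Fin.cons (a * t + b * t') (a • y + b • y') := by
  ext i
  refine Fin.cases ?_ ?_ i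
  · simp
  · intro j
    simp

theorem fib_convex {n : ℕ} {K : Set (Fin (n + 1) → ℝ)} (hc : Convex ℝ K) (y : Fin n → ℝ) :
    Convex ℝ (fib K y) := by
  intro s hs t ht a b ha hb hab
  show (Fin.cons (a • s + b • t) y : Fin (n + 1) → ℝ) ∈ K
  have h := hc hs ht ha hb hab
  rw [cons_comb, ← add_smul, hab, one_smul] at h
  exact h

theorem fib_compact {n : ℕ} {K : Set (Fin (n + 1) → ℝ)} (hK : IsCompact K) (y : Fin n → ℝ) :
    IsCompact (fib K y) := by
  have h1 : IsClosed (fib K y) := hK.isClosed.preimage (continuous_cons y)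
  have h2 : fib K y ⊆ (fun x : Fin (n + 1) → ℝ => x 0) '' K := by
    intro t ht
    exact ⟨_, ht, by simp⟩
  exact (hK.image (continuous_apply 0)).of_isClosed_subset h1 h2

theorem fib_Icc {n : ℕ} {K : Set (Fin (n + 1) → ℝ)} (hK : IsCompact K) (hc : Convex ℝ K)
    {y : Fin n → ℝ} (hy : y ∈ proj K) : ∃ α β : ℝ, α ≤ β ∧ fib K y = Icc α β := by
  have hne := mem_fib_iff.1 hy
  have h1 : IsConnected (fib K y) := ⟨hne, (fib_convex hc y).isPreconnected⟩
  have h2 := eq_Icc_of_connected_compact h1 (fib_compact hK y)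
  refine ⟨_, _, ?_, h2⟩
  rw [h2] at hne
  exact nonempty_Icc.1 hne

theorem proj_convex {n : ℕ} {K : Set (Fin (n + 1) → ℝ)} (hc : Convex ℝ K) :
    Convex ℝ (proj K) := by
  rintro _ ⟨x, hx, rfl⟩ _ ⟨x', hx', rfl⟩ a b ha hb hab
  exact ⟨_, hc hx hx' ha hb hab, by ext i; simp⟩

theorem proj_compact {n : ℕ} {K : Set (Fin (n + 1) → ℝ)} (hK : IsCompact K) :
    IsCompact (proj K) :=
  hK.image (by fun_prop)

/-- the segment from `0` to `2 e_0` -/
def seg (n : ℕ) : Set (Fin (n + 1) → ℝ) := {x | ∃ s : ℝ, 0 ≤ s ∧ s ≤ 2 ∧ x = Fin.cons s 0}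

theorem fib_add_seg {n : ℕ} {K : Set (Fin (n + 1) → ℝ)} (hK : IsCompact K) (hc : Convex ℝ K)
    (y : Fin n → ℝ) :
    volume (fib (K + seg n) y) = volume (fib K y) + (proj K).indicator (fun _ => 2) y := by
  have hmem : ∀ t, t ∈ fib (K + seg n) y ↔ ∃ s, 0 ≤ s ∧ s ≤ 2 ∧ t - s ∈ fib K y := by
    intro t
    constructor
    · rintro ⟨x, hx, _, ⟨s, hs0, hs2, rfl⟩, hxs⟩
      refine ⟨s, hs0, hs2, ?_⟩
      show (Fin.cons (t - s) y : Fin (n + 1) → ℝ) ∈ K
      have h1 : (Fin.cons (t - s) y : Fin (n + 1) → ℝ) = x := by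
        have h2 : x = Fin.cons t y - Fin.cons s 0 := eq_sub_of_add_eq hxs
        rw [h2]
        ext i
        refine Fin.cases ?_ ?_ i
        · simp
        · intro j
          simp
      rw [h1]
      exact hx
    · rintro ⟨s, hs0, hs2, h⟩
      refine ⟨_, h, _, ⟨s, hs0, hs2, rfl⟩, ?_⟩
      ext i
      refine Fin.cases ?_ ?_ i
      · simp
      · intro j
        simp
  by_cases hy : y ∈ proj K
  · obtain ⟨α, β, hαβ, hF⟩ := fib_Icc hK hc hy
    rw [indicator_of_mem hy]
    have h1 : fib (K + seg n) y = Icc α (β + 2) := by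
      ext t
      rw [hmem, hF]
      constructor
      · rintro ⟨s, hs0, hs2, h1, h2⟩
        constructor <;> linarith
      · rintro ⟨h1, h2⟩
        by_cases h3 : t ≤ β
        · exact ⟨0, le_rfl, by norm_num, by simpa using ⟨h1, h3⟩⟩
        · push Not at h3
          exact ⟨t - β, by linarith, by linarith, by constructor <;> linarith⟩
    rw [h1, hF, Real.volume_Icc, Real.volume_Icc]
    have h2 : (2 : ENNReal) = ENNReal.ofReal 2 := by simp
    rw [h2, ← ENNReal.ofReal_add (by linarith) (by norm_num)]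
    congr 1
    ring
  · rw [indicator_of_notMem hy, add_zero]
    have h0 : fib K y = ∅ := by
      by_contra h
      exact hy (mem_fib_iff.2 (nonempty_iff_ne_empty.2 h))
    have h1 : fib (K + seg n) y = ∅ := by
      ext t
      rw [hmem, h0]
      simp
    rw [h0, h1]

theorem isCompact_seg (n : ℕ) : IsCompact (seg n) := by
  have h1 : seg n = (fun s : ℝ => (Fin.cons s 0 : Fin (n + 1) → ℝ)) '' Icc 0 2 := by
    ext x
    constructor
    · rintro ⟨s, h0, h2, rfl⟩
      exact ⟨s, ⟨h0, h2⟩, rfl⟩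
    · rintro ⟨s, ⟨h0, h2⟩, rfl⟩
      exact ⟨s, h0, h2, rfl⟩
  rw [h1]
  exact isCompact_Icc.image (continuous_cons 0)

/-- volume of the sum of a convex body and a segment -/
theorem vol_add_seg {n : ℕ} {K : Set (Fin (n + 1) → ℝ)} (hK : IsCompact K) (hc : Convex ℝ K) :
    volume (K + seg n) = volume K + 2 * volume (proj K) := by
  rw [vol_fib (hK.add (isCompact_seg n)).isClosed.measurableSet,
    vol_fib hK.isClosed.measurableSet]
  simp_rw [fib_add_seg hK hc]
  rw [lintegral_add_left (meas_fib hK.isClosed.measurableSet),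
    lintegral_indicator (proj_compact hK).isClosed.measurableSet]
  simp

theorem int_pow (n : ℕ) :
    ∫⁻ t : ℝ in Ioo 0 2, ENNReal.ofReal ((1 - t / 2) ^ n) = ENNReal.ofReal (2 / (n + 1)) := by
  have hi : ∫ t : ℝ in (0:ℝ)..2, (1 - t / 2) ^ n = 2 / (n + 1) := by
    have hn : (n : ℝ) + 1 ≠ 0 := by positivity
    have h1 : ∀ t ∈ uIcc (0:ℝ) 2, HasDerivAt (fun t : ℝ => -(2 / (n + 1)) * (1 - t / 2) ^ (n + 1))
        ((1 - t / 2) ^ n) t := by
      intro t _
      have h2 : HasDerivAt (fun t : ℝ => 1 - t / 2) (-(1 / 2)) t := by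
        have := ((hasDerivAt_id t).div_const 2).const_sub 1
        simpa using this
      have h3 := (h2.pow (n + 1)).const_mul (-(2 / ((n : ℝ) + 1)))
      refine h3.congr_deriv ?_
      push_cast
      field_simp
    rw [intervalIntegral.integral_eq_sub_of_hasDerivAt h1
      ((by fun_prop : Continuous fun t : ℝ => (1 - t / 2) ^ n).intervalIntegrable _ _)]
    norm_num
  rw [← hi, intervalIntegral.integral_of_le (by norm_num), ← integral_Ioc_eq_integral_Ioo.symm,
    ofReal_integral_eq_lintegral_ofReal]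
  · exact ((by fun_prop : Continuous fun t : ℝ => (1 - t / 2) ^ n).integrableOn_Icc).mono_set
      Ioo_subset_Icc_self
  · filter_upwards [ae_restrict_mem measurableSet_Ioo] with t ht
    have : 0 ≤ 1 - t / 2 := by have := ht.2; linarith
    positivity

/-- volume of a convex body with a long chord, compared with the volume of its projection -/
theorem vol_proj_le {n : ℕ} {K : Set (Fin (n + 1) → ℝ)} (hK : IsCompact K) (hc : Convex ℝ K)
    {a : Fin n → ℝ} {t₀ : ℝ} (h1 : (Fin.cons t₀ a : Fin (n + 1) → ℝ) ∈ K)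
    (h2 : (Fin.cons (t₀ + 2) a : Fin (n + 1) → ℝ) ∈ K) :
    ENNReal.ofReal (2 / (n + 1)) * volume (proj K) ≤ volume K := by
  have hfin : ∀ y, volume (fib K y) ≠ ⊤ := fun y => (fib_compact hK y).measure_lt_top.ne
  set ℓ : (Fin n → ℝ) → ℝ := fun y => (volume (fib K y)).toReal with hℓ
  have hℓm : Measurable ℓ := (meas_fib hK.isClosed.measurableSet).ennreal_toReal
  have e1 : volume K = ∫⁻ t in Ioi (0:ℝ), volume {y | t ≤ ℓ y} := by
    rw [vol_fib hK.isClosed.measurableSet,
      ← lintegral_eq_lintegral_meas_le volume (Filter.Eventually.of_forall fun y =>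
        ENNReal.toReal_nonneg) hℓm.aemeasurable]
    apply lintegral_congr
    intro y
    exact (ENNReal.ofReal_toReal (hfin y)).symm
  have key : ∀ t ∈ Ioo (0:ℝ) 2, ENNReal.ofReal ((1 - t / 2) ^ n) * volume (proj K) ≤
      volume {y | t ≤ ℓ y} := by
    intro t ht
    have hr : 0 ≤ 1 - t / 2 := by have := ht.2; linarith
    have h3 := Measure.addHaar_image_homothety (volume : Measure (Fin n → ℝ)) a (1 - t / 2) (proj K)
    rw [Module.finrank_fin_fun, abs_of_nonneg (by positivity)] at h3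
    rw [← h3]
    apply measure_mono
    rintro _ ⟨y', hy', rfl⟩
    obtain ⟨s, hs⟩ := mem_fib_iff.1 hy'
    show t ≤ (volume (fib K _)).toReal
    have h4 : Icc ((1 - t / 2) * s + t / 2 * t₀) ((1 - t / 2) * s + t / 2 * t₀ + t) ⊆
        fib K (AffineMap.homothety a (1 - t / 2) y') := by
      intro x hx
      obtain ⟨hx1, hx2⟩ := hx
      have ht0 : 0 < t := ht.1
      set θ : ℝ := (x - ((1 - t / 2) * s + t / 2 * t₀)) / t with hθ
      have hθ0 : 0 ≤ θ := div_nonneg (by linarith) ht0.le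
      have hθ1 : θ ≤ 1 := by rw [hθ, div_le_one ht0]; linarith
      have h5 := hc h1 h2 (show 0 ≤ 1 - θ by linarith) hθ0 (by ring)
      have h6 := hc hs h5 hr (show 0 ≤ t / 2 by linarith) (by ring)
      rw [cons_comb, cons_comb] at h6
      show (Fin.cons x _ : Fin (n + 1) → ℝ) ∈ K
      have h7 : (1 - t / 2) * s + t / 2 * ((1 - θ) * t₀ + θ * (t₀ + 2)) = x := by
        have h8 : θ * t = x - ((1 - t / 2) * s + t / 2 * t₀) := by
          rw [hθ, div_mul_cancel₀ _ ht0.ne']
        linarith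
      have h9 : (1 - t / 2) • y' + (t / 2) • ((1 - θ) • a + θ • a) =
          AffineMap.homothety a (1 - t / 2) y' := by
        rw [AffineMap.homothety_apply, vsub_eq_sub, vadd_eq_add]
        module
      rw [h7, h9] at h6
      exact h6
    have h5 := measure_mono (μ := (volume : Measure ℝ)) h4
    rw [Real.volume_Icc, add_sub_cancel_left] at h5
    have h6 := ENNReal.toReal_mono (hfin _) h5
    rwa [ENNReal.toReal_ofReal ht.1.le] at h6
  calc ENNReal.ofReal (2 / (n + 1)) * volume (proj K)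
      = ∫⁻ t : ℝ in Ioo 0 2, ENNReal.ofReal ((1 - t / 2) ^ n) * volume (proj K) := by
        rw [lintegral_mul_const _ (by fun_prop), int_pow]
    _ ≤ ∫⁻ t : ℝ in Ioo 0 2, volume {y | t ≤ ℓ y} :=
        setLIntegral_mono' measurableSet_Ioo key
    _ ≤ ∫⁻ t in Ioi (0:ℝ), volume {y | t ≤ ℓ y} :=
        lintegral_mono_set Ioo_subset_Ioi_self
    _ = volume K := e1.symm

/-- `K` has a chord of length two in every coordinate direction -/
def Chords {n : ℕ} (K : Set (Fin n → ℝ)) : Prop :=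
  ∀ i, ∃ a ∈ K, a + Pi.single i (2 : ℝ) ∈ K

theorem chords_proj {n : ℕ} {K : Set (Fin (n + 1) → ℝ)} (h : Chords K) : Chords (proj K) := by
  intro i
  obtain ⟨a, ha, ha2⟩ := h i.succ
  refine ⟨_, ⟨a, ha, rfl⟩, _, ha2, ?_⟩
  ext j
  by_cases hij : j = i
  · subst hij
    simp
  · simp [hij]

theorem vol_ge : ∀ (n : ℕ) (K : Set (Fin n → ℝ)), IsCompact K → Convex ℝ K → K.Nonempty →
    Chords K → ENNReal.ofReal (2 ^ n / n.factorial) ≤ volume K := by
  intro n
  induction n with
  | zero =>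
    intro K _ _ hne _
    obtain ⟨x, hx⟩ := hne
    have h1 : K = univ := by
      ext y
      simp only [mem_univ, iff_true]
      have : y = x := Subsingleton.elim _ _
      rwa [this]
    rw [h1]
    simp [volume_pi]
  | succ n ih =>
    intro K hK hc hne hch
    have h1 := ih (proj K) (proj_compact hK) (proj_convex hc) (hne.image _) (chords_proj hch)
    obtain ⟨a, ha, ha2⟩ := hch 0
    have e1 : (Fin.cons (a 0) (fun i => a i.succ) : Fin (n + 1) → ℝ) = a := by
      ext i
      refine Fin.cases ?_ ?_ i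
      · simp
      · intro j; simp
    have e2 : (Fin.cons (a 0 + 2) (fun i => a i.succ) : Fin (n + 1) → ℝ) =
        a + Pi.single 0 (2 : ℝ) := by
      ext i
      refine Fin.cases ?_ ?_ i
      · simp
      · intro j; simp
    have h2 := vol_proj_le hK hc (a := fun i => a i.succ) (t₀ := a 0) (by rw [e1]; exact ha)
      (by rw [e2]; exact ha2)
    calc ENNReal.ofReal (2 ^ (n + 1) / (n + 1).factorial)
        = ENNReal.ofReal (2 / (n + 1)) * ENNReal.ofReal (2 ^ n / n.factorial) := by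
          rw [← ENNReal.ofReal_mul (by positivity)]
          congr 1
          rw [Nat.factorial_succ]
          push_cast
          have : (n.factorial : ℝ) ≠ 0 := by positivity
          field_simp
          ring
      _ ≤ ENNReal.ofReal (2 / (n + 1)) * volume (proj K) := by gcongr
      _ ≤ volume K := h2

theorem vol_seg_ge {n : ℕ} {K : Set (Fin (n + 1) → ℝ)} (hK : IsCompact K) (hc : Convex ℝ K)
    (hne : K.Nonempty) (hch : Chords K) :
    ENNReal.ofReal ((n + 2) * 2 ^ (n + 1) / (n + 1).factorial) ≤ volume (K + seg n) := by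
  have h1 := vol_ge n (proj K) (proj_compact hK) (proj_convex hc) (hne.image _) (chords_proj hch)
  obtain ⟨a, ha, ha2⟩ := hch 0
  have e1 : (Fin.cons (a 0) (fun i => a i.succ) : Fin (n + 1) → ℝ) = a := by
    ext i
    refine Fin.cases ?_ ?_ i
    · simp
    · intro j; simp
  have e2 : (Fin.cons (a 0 + 2) (fun i => a i.succ) : Fin (n + 1) → ℝ) =
      a + Pi.single 0 (2 : ℝ) := by
    ext i
    refine Fin.cases ?_ ?_ i
    · simp
    · intro j; simp
  have h2 := vol_proj_le hK hc (a := fun i => a i.succ) (t₀ := a 0) (by rw [e1]; exact ha)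
    (by rw [e2]; exact ha2)
  rw [vol_add_seg hK hc]
  calc ENNReal.ofReal ((n + 2) * 2 ^ (n + 1) / (n + 1).factorial)
      = (ENNReal.ofReal (2 / (n + 1)) + 2) * ENNReal.ofReal (2 ^ n / n.factorial) := by
        have h3 : (2 : ENNReal) = ENNReal.ofReal 2 := by simp
        rw [h3, ← ENNReal.ofReal_add (by positivity) (by norm_num),
          ← ENNReal.ofReal_mul (by positivity)]
        congr 1
        rw [Nat.factorial_succ]
        push_cast
        have : (n.factorial : ℝ) ≠ 0 := by positivity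
        field_simp
        ring
    _ ≤ (ENNReal.ofReal (2 / (n + 1)) + 2) * volume (proj K) := by gcongr
    _ = ENNReal.ofReal (2 / (n + 1)) * volume (proj K) + 2 * volume (proj K) := by ring
    _ ≤ volume K + 2 * volume (proj K) := by gcongr

theorem vol_seg_le {n : ℕ} {K : Set (Fin (n + 1) → ℝ)} (hK : IsCompact K) (hc : Convex ℝ K)
    {a : Fin (n + 1) → ℝ} (ha : a ∈ K) (ha2 : a + Pi.single 0 (2 : ℝ) ∈ K) :
    volume (K + seg n) ≤ ENNReal.ofReal (n + 2) * volume K := by
  have e1 : (Fin.cons (a 0) (fun i => a i.succ) : Fin (n + 1) → ℝ) = a := by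
    ext i
    refine Fin.cases ?_ ?_ i
    · simp
    · intro j; simp
  have e2 : (Fin.cons (a 0 + 2) (fun i => a i.succ) : Fin (n + 1) → ℝ) =
      a + Pi.single 0 (2 : ℝ) := by
    ext i
    refine Fin.cases ?_ ?_ i
    · simp
    · intro j; simp
  have h2 := vol_proj_le hK hc (a := fun i => a i.succ) (t₀ := a 0) (by rw [e1]; exact ha)
    (by rw [e2]; exact ha2)
  rw [vol_add_seg hK hc]
  have h3 : 2 * volume (proj K) ≤ ENNReal.ofReal (n + 1) * volume K := by
    calc 2 * volume (proj K)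
        = ENNReal.ofReal (n + 1) * (ENNReal.ofReal (2 / (n + 1)) * volume (proj K)) := by
          rw [← mul_assoc, ← ENNReal.ofReal_mul (by positivity)]
          have : ((n : ℝ) + 1) * (2 / (n + 1)) = 2 := by field_simp
          rw [this]
          simp
      _ ≤ ENNReal.ofReal (n + 1) * volume K := by gcongr
  calc volume K + 2 * volume (proj K)
      ≤ volume K + ENNReal.ofReal (n + 1) * volume K := by gcongr
    _ = (1 + ENNReal.ofReal (n + 1)) * volume K := by ring
    _ = ENNReal.ofReal (n + 2) * volume K := by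
        congr 1
        rw [← ENNReal.ofReal_one, ← ENNReal.ofReal_add (by norm_num) (by positivity)]
        congr 1
        ring

theorem seg_eq (n : ℕ) : seg n = segment ℝ (0 : Fin (n + 1) → ℝ) (Pi.single 0 (2 : ℝ)) := by
  rw [segment_eq_image]
  ext x
  constructor
  · rintro ⟨s, h0, h2, rfl⟩
    refine ⟨s / 2, ⟨by positivity, by linarith⟩, ?_⟩
    ext i
    refine Fin.cases ?_ ?_ i
    · simp
    · intro j; simp
  · rintro ⟨t, ⟨h0, h1⟩, rfl⟩
    refine ⟨2 * t, by positivity, by linarith, ?_⟩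
    ext i
    refine Fin.cases ?_ ?_ i
    · simp [mul_comm]
    · intro j; simp

/-- linear change of variables -/
theorem vol_image {n : ℕ} (A : (Fin (n + 1) → ℝ) ≃L[ℝ] (Fin (n + 1) → ℝ))
    (K : Set (Fin (n + 1) → ℝ)) (p : Fin (n + 1) → ℝ) (hp : A (Pi.single 0 (2 : ℝ)) = p) :
    volume (K + segment ℝ 0 p) = ENNReal.ofReal |LinearMap.det (A : (Fin (n + 1) → ℝ) →ₗ[ℝ] _)| *
      volume (A.symm '' K + seg n) := by
  rw [← Measure.addHaar_image_continuousLinearEquiv, Set.image_add, Set.image_image, seg_eq]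
  have h1 : (fun x => A (A.symm x)) '' K = K := by simp
  have h2 : A '' segment ℝ 0 (Pi.single 0 (2 : ℝ)) = segment ℝ 0 p := by
    have h3 := image_segment (𝕜 := ℝ) (A : (Fin (n + 1) → ℝ) →ₗ[ℝ] (Fin (n + 1) → ℝ)).toAffineMap
      (0 : Fin (n + 1) → ℝ) (Pi.single 0 (2 : ℝ))
    simp only [LinearMap.coe_toAffineMap] at h3
    have h4 : (A : (Fin (n + 1) → ℝ) →ₗ[ℝ] (Fin (n + 1) → ℝ)) (Pi.single 0 (2 : ℝ)) = p := hp
    rw [h4, map_zero] at h3
    exact h3
  rw [h1, h2]

theorem hull_sub {n : ℕ} {K : Set (Fin n → ℝ)} (hc : Convex ℝ K) (p : Fin n → ℝ) :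
    convexHull ℝ (K ∪ (p +ᵥ K)) ⊆ K + segment ℝ 0 p := by
  apply convexHull_min
  · rintro x (hx | ⟨y, hy, rfl⟩)
    · exact ⟨x, hx, 0, left_mem_segment ℝ 0 p, add_zero x⟩
    · exact ⟨y, hy, p, right_mem_segment ℝ 0 p, by simp [add_comm]⟩
  · exact hc.add (convex_segment 0 p)

theorem sub_hull {n : ℕ} (K : Set (Fin n → ℝ)) (p : Fin n → ℝ) :
    K + segment ℝ 0 p ⊆ convexHull ℝ (K ∪ (p +ᵥ K)) := by
  rintro _ ⟨x, hx, q, hq, rfl⟩
  rw [segment_eq_image] at hq
  obtain ⟨t, ⟨h0, h1⟩, rfl⟩ := hq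
  have h2 : x ∈ convexHull ℝ (K ∪ (p +ᵥ K)) := subset_convexHull ℝ _ (Or.inl hx)
  have h3 : p + x ∈ convexHull ℝ (K ∪ (p +ᵥ K)) :=
    subset_convexHull ℝ _ (Or.inr ⟨x, hx, rfl⟩)
  have h4 := (convex_convexHull ℝ (K ∪ (p +ᵥ K))) h2 h3 (show 0 ≤ 1 - t by linarith) h0 (by ring)
  have h5 : (1 - t) • x + t • (p + x) = x + ((1 - t) • (0 : Fin n → ℝ) + t • p) := by module
  show x + ((1 - t) • (0 : Fin n → ℝ) + t • p) ∈ _
  rw [← h5]
  exact h4

/-- the easy upper bound (Rogers and Shephard) -/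
theorem hull_le {n : ℕ} {K : Set (Fin (n + 1) → ℝ)} (hK : IsCompact K) (hc : Convex ℝ K)
    {p : Fin (n + 1) → ℝ} (hp : ((p +ᵥ K) ∩ K).Nonempty) :
    volume (convexHull ℝ (K ∪ (p +ᵥ K))) ≤ ENNReal.ofReal (n + 2) * volume K := by
  obtain ⟨x, ⟨y, hy, hyx⟩, hx⟩ := hp
  have hyx' : p + y = x := hyx
  by_cases hp0 : p = 0
  · subst hp0
    have h1 : K ∪ ((0 : Fin (n + 1) → ℝ) +ᵥ K) = K := by simp
    rw [h1, hc.convexHull_eq]
    calc volume K = 1 * volume K := (one_mul _).symm
      _ ≤ ENNReal.ofReal (n + 2) * volume K := by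
        gcongr
        rw [ENNReal.one_le_ofReal]
        have : (0 : ℝ) ≤ n := Nat.cast_nonneg n
        linarith
  · have hs : (Pi.single 0 (2 : ℝ) : Fin (n + 1) → ℝ) ≠ 0 := by
      intro h
      have := congrFun h 0
      simp at this
    obtain ⟨A, hA⟩ := SeparatingDual.exists_continuousLinearEquiv_apply_eq (R := ℝ) hs hp0
    have h1 : IsCompact (A.symm '' K) := hK.image A.symm.continuous
    have h2 : Convex ℝ (A.symm '' K) :=
      hc.linear_image (A.symm : (Fin (n + 1) → ℝ) →ₗ[ℝ] (Fin (n + 1) → ℝ))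
    have h3 : A.symm p = Pi.single 0 (2 : ℝ) := by rw [← hA]; simp
    have h4 : A.symm y + Pi.single 0 (2 : ℝ) ∈ A.symm '' K := by
      refine ⟨x, hx, ?_⟩
      rw [← hyx', map_add, h3]
      exact add_comm _ _
    have h5 := vol_seg_le h1 h2 ⟨y, hy, rfl⟩ h4
    calc volume (convexHull ℝ (K ∪ (p +ᵥ K))) ≤ volume (K + segment ℝ 0 p) :=
          measure_mono (hull_sub hc p)
      _ = ENNReal.ofReal |LinearMap.det (A : (Fin (n + 1) → ℝ) →ₗ[ℝ] _)| *
          volume (A.symm '' K + seg n) := vol_image A K p hA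
      _ ≤ ENNReal.ofReal |LinearMap.det (A : (Fin (n + 1) → ℝ) →ₗ[ℝ] _)| *
          (ENNReal.ofReal (n + 2) * volume (A.symm '' K)) := by gcongr
      _ = ENNReal.ofReal (n + 2) * (ENNReal.ofReal
          |LinearMap.det (A : (Fin (n + 1) → ℝ) →ₗ[ℝ] _)| * volume (A.symm '' K)) := by ring
      _ = ENNReal.ofReal (n + 2) * volume K := by
          rw [← Measure.addHaar_image_continuousLinearEquiv, Set.image_image]
          simp

/-- A convex body: a compact convex set with nonempty interior. -/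
structure IsConvexBody {d : ℕ} (K : Set (Fin d → ℝ)) : Prop where
  isCompact : IsCompact K
  convex : Convex ℝ K
  interior_nonempty : (interior K).Nonempty

/-- The unit ball `M = (K - K)/2` of the relative norm of `K`. -/
def relBall {d : ℕ} (K : Set (Fin d → ℝ)) : Set (Fin d → ℝ) := (1 / 2 : ℝ) • (K - K)

/-- The cross-polytope with centre `c` and vertices `c + v i`, `c - v i`. -/
def crossPolytope {d : ℕ} (c : Fin d → ℝ) (v : Fin d → Fin d → ℝ) : Set (Fin d → ℝ) :=
  convexHull ℝ (Set.range (fun i => c + v i) ∪ Set.range (fun i => c - v i))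

/-- The maximal volume of a cross-polytope inscribed in `M`. -/
noncomputable def maxCross {d : ℕ} (M : Set (Fin d → ℝ)) : ENNReal :=
  ⨆ (c : Fin d → ℝ) (v : Fin d → Fin d → ℝ) (_ : crossPolytope c v ⊆ M),
    volume (crossPolytope c v)

/-- Gromov's mass of `S` for the norm with unit ball `M`: the multiple of the Lebesgue measure for
which a cross-polytope of maximal volume inscribed in `M` has volume `2 ^ d / d!`. -/
noncomputable def massVol {d : ℕ} (M S : Set (Fin d → ℝ)) : ENNReal :=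
  ENNReal.ofReal (2 ^ d / d.factorial) / maxCross M * volume S

/-- The maximal mass, in the relative norm of `K`, of the convex hull of the union of `K` and a
translate of `K` that meets `K`. -/
noncomputable def cTr {d : ℕ} (K : Set (Fin d → ℝ)) : ENNReal :=
  ⨆ (p : Fin d → ℝ) (_ : ((p +ᵥ K) ∩ K).Nonempty),
    massVol (relBall K) (convexHull ℝ (K ∪ (p +ᵥ K)))

/-- The standard cross-polytope, the convex hull of the vectors `e_i` and `-e_i`. -/
def std (d : ℕ) : Set (Fin d → ℝ) := crossPolytope 0 (fun i => Pi.single i (1 : ℝ))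

theorem cross_eq {d : ℕ} (c : Fin d → ℝ) (v : Fin d → Fin d → ℝ) :
    crossPolytope c v = c +ᵥ ((Matrix.toLin' (Matrix.of v).transpose) '' std d) := by
  have hL : ∀ i, Matrix.toLin' (Matrix.of v).transpose (Pi.single i (1 : ℝ)) = v i := by
    intro i
    rw [Matrix.toLin'_apply, Matrix.mulVec_single_one]
    rfl
  unfold std crossPolytope
  rw [LinearMap.image_convexHull, ← convexHull_vadd, image_union, ← range_comp, ← range_comp]
  congr 1
  rw [Set.vadd_set_union]
  congr 1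
  · ext x
    constructor
    · rintro ⟨i, rfl⟩
      exact ⟨v i, ⟨i, by simp [hL]⟩, rfl⟩
    · rintro ⟨_, ⟨i, rfl⟩, rfl⟩
      exact ⟨i, by simp [hL]⟩
  · ext x
    constructor
    · rintro ⟨i, rfl⟩
      refine ⟨- v i, ⟨i, ?_⟩, by simp [sub_eq_add_neg]⟩
      show Matrix.toLin' (Matrix.of v).transpose (0 - Pi.single i (1 : ℝ)) = - v i
      rw [zero_sub, map_neg, hL]
    · rintro ⟨_, ⟨i, rfl⟩, rfl⟩
      refine ⟨i, ?_⟩
      show c - v i = c + Matrix.toLin' (Matrix.of v).transpose (0 - Pi.single i (1 : ℝ))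
      rw [zero_sub, map_neg, hL, sub_eq_add_neg]

theorem vol_cross {d : ℕ} (c : Fin d → ℝ) (v : Fin d → Fin d → ℝ) :
    volume (crossPolytope c v) = ENNReal.ofReal |(Matrix.of v).det| * volume (std d) := by
  rw [cross_eq, measure_vadd, Measure.addHaar_image_linearMap, LinearMap.det_toLin',
    Matrix.det_transpose]

theorem std_sub (d : ℕ) : std d ⊆ {x | ∑ i, |x i| ≤ 1} := by
  apply convexHull_min
  · rintro _ (⟨i, rfl⟩ | ⟨i, rfl⟩)
    · simp only [zero_add, mem_ofPred_eq]
      rw [Finset.sum_eq_single i]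
      · simp
      · intro j _ hj
        simp [hj]
      · simp
    · simp only [zero_sub, mem_ofPred_eq]
      rw [Finset.sum_eq_single i]
      · simp
      · intro j _ hj
        simp [hj]
      · simp
  · intro x hx y hy a b ha hb hab
    simp only [mem_ofPred_eq] at hx hy ⊢
    calc ∑ i, |(a • x + b • y) i| ≤ ∑ i, (a * |x i| + b * |y i|) := by
          apply Finset.sum_le_sum
          intro i _
          simp only [Pi.add_apply, Pi.smul_apply, smul_eq_mul]
          refine (abs_add_le _ _).trans ?_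
          rw [abs_mul, abs_mul, abs_of_nonneg ha, abs_of_nonneg hb]
      _ = a * ∑ i, |x i| + b * ∑ i, |y i| := by
          rw [Finset.sum_add_distrib, Finset.mul_sum, Finset.mul_sum]
      _ ≤ a * 1 + b * 1 := by gcongr
      _ = 1 := by linarith

theorem vol_std_le {d : ℕ} (hd : 0 < d) :
    volume (std d) ≤ ENNReal.ofReal (2 ^ d / d.factorial) := by
  have : Nonempty (Fin d) := ⟨⟨0, hd⟩⟩
  have h1 := volume_sum_rpow_le (Fin d) (p := 1) le_rfl 1
  refine (measure_mono (std_sub d)).trans ?_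
  have h2 : {x : Fin d → ℝ | (∑ i, |x i| ^ (1:ℝ)) ^ (1 / (1:ℝ)) ≤ 1} = {x | ∑ i, |x i| ≤ 1} := by
    ext x
    simp
  rw [h2] at h1
  rw [h1]
  have h3 : Real.Gamma (1 / 1 + 1) = 1 := by
    norm_num
  rw [h3]
  have h4 : Real.Gamma ((Fintype.card (Fin d) : ℝ) / 1 + 1) = d.factorial := by
    rw [div_one, Fintype.card_fin]
    exact Real.Gamma_nat_eq_factorial d
  rw [h4]
  simp

theorem relBall_neg {d : ℕ} {K : Set (Fin d → ℝ)} {x : Fin d → ℝ} (hx : x ∈ relBall K) :
    -x ∈ relBall K := by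
  obtain ⟨_, ⟨a, ha, b, hb, rfl⟩, rfl⟩ := hx
  refine ⟨b - a, ⟨b, hb, a, ha, rfl⟩, ?_⟩
  show (1 / 2 : ℝ) • (b - a) = -((1 / 2 : ℝ) • (a - b))
  module

theorem relBall_convex {d : ℕ} {K : Set (Fin d → ℝ)} (hc : Convex ℝ K) :
    Convex ℝ (relBall K) := (hc.sub hc).smul _

theorem relBall_compact {d : ℕ} {K : Set (Fin d → ℝ)} (hK : IsCompact K) :
    IsCompact (relBall K) := by
  have h : relBall K = (fun q : (Fin d → ℝ) × (Fin d → ℝ) => (1 / 2 : ℝ) • (q.1 - q.2)) ''
      (K ×ˢ K) := by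
    ext x
    constructor
    · rintro ⟨_, ⟨a, ha, b, hb, rfl⟩, rfl⟩
      exact ⟨(a, b), ⟨ha, hb⟩, rfl⟩
    · rintro ⟨⟨a, b⟩, ⟨ha, hb⟩, rfl⟩
      exact ⟨a - b, ⟨a, ha, b, hb, rfl⟩, rfl⟩
  rw [h]
  exact (hK.prod hK).image (by fun_prop)

theorem relBall_ball {d : ℕ} {K : Set (Fin d → ℝ)} (h : (interior K).Nonempty) :
    ∃ r : ℝ, 0 < r ∧ Metric.ball (0 : Fin d → ℝ) r ⊆ relBall K := by
  obtain ⟨x, hx⟩ := h
  obtain ⟨r, hr, hb⟩ := Metric.isOpen_iff.1 isOpen_interior x hx
  refine ⟨r / 2, by positivity, ?_⟩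
  intro y hy
  rw [mem_ball_zero_iff] at hy
  have h1 : x + (2 : ℝ) • y ∈ K := by
    apply interior_subset
    apply hb
    rw [mem_ball_iff_norm, add_sub_cancel_left, norm_smul, Real.norm_of_nonneg (by norm_num)]
    linarith
  refine ⟨(x + (2 : ℝ) • y) - x, ⟨_, h1, x, interior_subset hx, rfl⟩, ?_⟩
  show (1 / 2 : ℝ) • ((x + (2 : ℝ) • y) - x) = y
  module

theorem cross_sub_iff {d : ℕ} {K : Set (Fin d → ℝ)} (hc : Convex ℝ K)
    {c : Fin d → ℝ} {v : Fin d → Fin d → ℝ} (h : crossPolytope c v ⊆ relBall K) (i : Fin d) :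
    v i ∈ relBall K := by
  have h1 : c + v i ∈ relBall K := h (subset_convexHull ℝ _ (Or.inl ⟨i, rfl⟩))
  have h2 : c - v i ∈ relBall K := h (subset_convexHull ℝ _ (Or.inr ⟨i, rfl⟩))
  have h3 := (relBall_convex hc) h1 (relBall_neg h2) (show (0:ℝ) ≤ 1 / 2 by norm_num)
    (show (0:ℝ) ≤ 1 / 2 by norm_num) (by norm_num)
  have h4 : (1 / 2 : ℝ) • (c + v i) + (1 / 2 : ℝ) • (-(c - v i)) = v i := by module
  rwa [h4] at h3

theorem cross_sub {d : ℕ} {K : Set (Fin d → ℝ)} (hc : Convex ℝ K)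
    {v : Fin d → Fin d → ℝ} (h : ∀ i, v i ∈ relBall K) : crossPolytope 0 v ⊆ relBall K := by
  apply convexHull_min _ (relBall_convex hc)
  rintro _ (⟨i, rfl⟩ | ⟨i, rfl⟩)
  · simpa using h i
  · simpa using relBall_neg (h i)

/-- A maximal inscribed cross-polytope exists. -/
theorem exists_max {d : ℕ} {K : Set (Fin d → ℝ)} (hK : IsConvexBody K) :
    ∃ v : Fin d → Fin d → ℝ, (∀ i, v i ∈ relBall K) ∧ 0 < |(Matrix.of v).det| ∧
      maxCross (relBall K) = ENNReal.ofReal |(Matrix.of v).det| * volume (std d) := by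
  have hcpt : IsCompact (Set.univ.pi (fun _ : Fin d => relBall K)) :=
    isCompact_univ_pi fun _ => relBall_compact hK.isCompact
  obtain ⟨r, hr, hball⟩ := relBall_ball hK.interior_nonempty
  have hne : (Set.univ.pi (fun _ : Fin d => relBall K)).Nonempty :=
    ⟨fun _ => 0, fun _ _ => hball (by simpa using hr)⟩
  have hcont : Continuous fun v : Fin d → Fin d → ℝ => |(Matrix.of v).det| :=
    (Continuous.matrix_det continuous_id).abs
  obtain ⟨v, hv, hmax⟩ := hcpt.exists_isMaxOn hne hcont.continuousOn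
  have hpos : 0 < |(Matrix.of v).det| := by
    have h1 : (fun i => Pi.single i (r / 2) : Fin d → Fin d → ℝ) ∈
        Set.univ.pi (fun _ : Fin d => relBall K) := by
      intro i _
      apply hball
      rw [mem_ball_zero_iff, pi_norm_lt_iff hr]
      intro j
      show ‖(Pi.single i (r / 2) : Fin d → ℝ) j‖ < r
      by_cases hij : j = i
      · subst hij
        rw [Pi.single_eq_same, Real.norm_of_nonneg (by positivity)]
        linarith
      · rw [Pi.single_eq_of_ne hij]
        simpa using hr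
    have h2 := hmax h1
    have h3 : (Matrix.of (fun i => Pi.single i (r / 2) : Fin d → Fin d → ℝ)) =
        Matrix.diagonal (fun _ => r / 2) := by
      ext i j
      by_cases hij : i = j
      · subst hij
        simp
      · rw [Matrix.diagonal_apply_ne _ hij]
        simp [Ne.symm hij]
    simp only [mem_ofPred_eq] at h2
    rw [h3, Matrix.det_diagonal] at h2
    refine lt_of_lt_of_le ?_ h2
    simp only [Finset.prod_const]
    positivity
  refine ⟨v, fun i => hv i (mem_univ i), hpos, ?_⟩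
  apply le_antisymm
  · refine iSup_le fun c => iSup_le fun w => iSup_le fun h => ?_
    rw [vol_cross]
    have h1 : |(Matrix.of w).det| ≤ |(Matrix.of v).det| :=
      hmax (show w ∈ Set.univ.pi (fun _ : Fin d => relBall K) from
        fun i _ => cross_sub_iff hK.convex h i)
    exact mul_le_mul_left (ENNReal.ofReal_le_ofReal h1) _
  · rw [← vol_cross 0 v]
    exact le_iSup_of_le 0 (le_iSup_of_le v (le_iSup_of_le
      (cross_sub hK.convex fun i => hv i (mem_univ i)) le_rfl))

/-- Lower bound, with an explicit translation. -/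
theorem lower {n : ℕ} {K : Set (Fin (n + 1) → ℝ)} (hK : IsConvexBody K) :
    ∃ p : Fin (n + 1) → ℝ, ((p +ᵥ K) ∩ K).Nonempty ∧
      ENNReal.ofReal ((n + 2) * 2 ^ (n + 1) / (n + 1).factorial) ≤
        massVol (relBall K) (convexHull ℝ (K ∪ (p +ᵥ K))) := by
  obtain ⟨v, hv, hpos, hmax⟩ := exists_max hK
  set D : ℝ := |(Matrix.of v).det| with hD
  have hdet : (Matrix.of v).det ≠ 0 := abs_pos.1 hpos
  have hdet' : LinearMap.det (Matrix.toLin' (Matrix.of v).transpose) ≠ 0 := by
    rw [LinearMap.det_toLin', Matrix.det_transpose]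
    exact hdet
  let A : (Fin (n + 1) → ℝ) ≃L[ℝ] (Fin (n + 1) → ℝ) :=
    ((Matrix.toLin' (Matrix.of v).transpose).equivOfDetNeZero hdet').toContinuousLinearEquiv
  have hA : ∀ x, A x = Matrix.toLin' (Matrix.of v).transpose x := fun x => rfl
  have hA1 : ∀ i (t : ℝ), A (Pi.single i t) = t • v i := by
    intro i t
    rw [hA, Matrix.toLin'_apply, Matrix.mulVec_single]
    ext j
    simp [mul_comm]
  have hAdet : |LinearMap.det (A : (Fin (n + 1) → ℝ) →ₗ[ℝ] (Fin (n + 1) → ℝ))| = D := by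
    have h1 : (A : (Fin (n + 1) → ℝ) →ₗ[ℝ] (Fin (n + 1) → ℝ)) =
        Matrix.toLin' (Matrix.of v).transpose := by
      ext x : 1
      rfl
    rw [h1, LinearMap.det_toLin', Matrix.det_transpose]
  have hxy : ∀ i, ∃ y ∈ K, y + (2 : ℝ) • v i ∈ K := by
    intro i
    obtain ⟨_, ⟨x, hx, y, hy, rfl⟩, hxy⟩ := hv i
    refine ⟨y, hy, ?_⟩
    have h1 : y + (2 : ℝ) • v i = x := by
      rw [← hxy]
      show y + (2 : ℝ) • ((1 / 2 : ℝ) • (x - y)) = x
      module
    rwa [h1]
  have hch : Chords (A.symm '' K) := by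
    intro i
    obtain ⟨y, hy, hy2⟩ := hxy i
    refine ⟨A.symm y, ⟨y, hy, rfl⟩, y + (2 : ℝ) • v i, hy2, ?_⟩
    rw [map_add, ← hA1 i 2, ContinuousLinearEquiv.symm_apply_apply]
  have hne : K.Nonempty := hK.interior_nonempty.mono interior_subset
  have h2 := vol_seg_ge (hK.isCompact.image A.symm.continuous)
    (hK.convex.linear_image (A.symm : (Fin (n + 1) → ℝ) →ₗ[ℝ] (Fin (n + 1) → ℝ)))
    (hne.image _) hch
  refine ⟨(2 : ℝ) • v 0, ?_, ?_⟩
  · obtain ⟨y, hy, hy2⟩ := hxy 0
    exact ⟨y + (2 : ℝ) • v 0, ⟨y, hy, by simp [add_comm]⟩, hy2⟩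
  · have h3 : ENNReal.ofReal D * ENNReal.ofReal ((n + 2) * 2 ^ (n + 1) / (n + 1).factorial) ≤
        volume (convexHull ℝ (K ∪ (((2 : ℝ) • v 0) +ᵥ K))) := by
      refine le_trans ?_ (measure_mono (sub_hull K _))
      rw [vol_image A K _ (hA1 0 2), hAdet]
      gcongr
    have h4 : maxCross (relBall K) ≤
        ENNReal.ofReal D * ENNReal.ofReal (2 ^ (n + 1) / (n + 1).factorial) := by
      rw [hmax]
      gcongr
      exact vol_std_le (Nat.succ_pos n)
    have hD0 : ENNReal.ofReal D ≠ 0 := by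
      rw [Ne, ENNReal.ofReal_eq_zero, not_le]
      exact hpos
    have ha0 : ENNReal.ofReal ((2 : ℝ) ^ (n + 1) / (n + 1).factorial) ≠ 0 := by
      rw [Ne, ENNReal.ofReal_eq_zero, not_le]
      positivity
    unfold massVol
    calc ENNReal.ofReal ((n + 2) * 2 ^ (n + 1) / (n + 1).factorial)
        = ENNReal.ofReal (2 ^ (n + 1) / (n + 1).factorial) /
          (ENNReal.ofReal D * ENNReal.ofReal (2 ^ (n + 1) / (n + 1).factorial)) *
          (ENNReal.ofReal D * ENNReal.ofReal ((n + 2) * 2 ^ (n + 1) / (n + 1).factorial)) := by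
          have e1 : ENNReal.ofReal (2 ^ (n + 1) / (n + 1).factorial) /
              (ENNReal.ofReal D * ENNReal.ofReal (2 ^ (n + 1) / (n + 1).factorial)) =
              (ENNReal.ofReal D)⁻¹ := by
            rw [div_eq_mul_inv, ENNReal.mul_inv (Or.inl hD0) (Or.inl ENNReal.ofReal_ne_top),
              mul_left_comm, ENNReal.mul_inv_cancel ha0 ENNReal.ofReal_ne_top, mul_one]
          rw [e1, ← mul_assoc, ENNReal.inv_mul_cancel hD0 ENNReal.ofReal_ne_top, one_mul]
      _ ≤ _ := by gcongr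

theorem std_eq {d : ℕ} (hd : 0 < d) : std d = {x | ∑ i, |x i| ≤ 1} := by
  apply Subset.antisymm (std_sub d)
  intro x hx
  have hcv : Convex ℝ (std d) := convex_convexHull ℝ _
  have hp : ∀ i, Pi.single i (1 : ℝ) ∈ std d := fun i =>
    subset_convexHull ℝ _ (Or.inl ⟨i, by simp⟩)
  have hm : ∀ i, -Pi.single i (1 : ℝ) ∈ std d := fun i =>
    subset_convexHull ℝ _ (Or.inr ⟨i, by simp⟩)
  have h0 : (0 : Fin d → ℝ) ∈ std d := by
    have h1 := hcv (hp ⟨0, hd⟩) (hm ⟨0, hd⟩) (show (0:ℝ) ≤ 1 / 2 by norm_num)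
      (show (0:ℝ) ≤ 1 / 2 by norm_num) (by norm_num)
    have h2 : (1 / 2 : ℝ) • (Pi.single ⟨0, hd⟩ (1:ℝ) : Fin d → ℝ) +
        (1 / 2 : ℝ) • (-(Pi.single ⟨0, hd⟩ (1:ℝ) : Fin d → ℝ)) = 0 := by module
    rwa [h2] at h1
  have hs : ∀ i, ∃ z ∈ std d, (x i) • (Pi.single i (1 : ℝ) : Fin d → ℝ) = |x i| • z := by
    intro i
    rcases le_or_gt 0 (x i) with h | h
    · exact ⟨_, hp i, by rw [abs_of_nonneg h]⟩
    · exact ⟨_, hm i, by rw [abs_of_neg h]; module⟩
  choose z hz hxz using hs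
  have hx1 : x = ∑ i, |x i| • z i := by
    calc x = ∑ i, x i • (Pi.single i (1 : ℝ) : Fin d → ℝ) := by
          ext j
          simp [Finset.sum_apply, Pi.single_apply]
      _ = ∑ i, |x i| • z i := Finset.sum_congr rfl fun i _ => hxz i
  have hsum0 : 0 ≤ ∑ i, |x i| := Finset.sum_nonneg fun i _ => abs_nonneg _
  rcases hsum0.eq_or_lt with h | h
  · have h1 : ∀ i, |x i| = 0 := fun i =>
      (Finset.sum_eq_zero_iff_of_nonneg (fun i _ => abs_nonneg _)).1 h.symm i (Finset.mem_univ i)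
    have h2 : x = 0 := by
      ext i
      exact abs_eq_zero.1 (h1 i)
    rw [h2]
    exact h0
  · have h1 : ∑ i, (|x i| / ∑ j, |x j|) • z i ∈ std d := by
      apply hcv.sum_mem
      · intro i _
        positivity
      · rw [← Finset.sum_div, div_self h.ne']
      · intro i _
        exact hz i
    have h2 := hcv h1 h0 hsum0 (show 0 ≤ 1 - ∑ i, |x i| by
      have : ∑ i, |x i| ≤ 1 := hx
      linarith) (by ring)
    have h3 : (∑ i, |x i|) • (∑ i, (|x i| / ∑ j, |x j|) • z i) +
        (1 - ∑ i, |x i|) • (0 : Fin d → ℝ) = x := by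
      rw [smul_zero, add_zero, Finset.smul_sum]
      conv_rhs => rw [hx1]
      apply Finset.sum_congr rfl
      intro i _
      rw [smul_smul, mul_div_cancel₀ _ h.ne']
    rwa [h3] at h2

theorem std_body {d : ℕ} (hd : 0 < d) : IsConvexBody (std d) := by
  refine ⟨?_, convex_convexHull ℝ _, ?_⟩
  · have hf : (Set.range (fun i : Fin d => (0 : Fin d → ℝ) + Pi.single i (1 : ℝ)) ∪
        Set.range fun i : Fin d => (0 : Fin d → ℝ) - Pi.single i (1 : ℝ)).Finite :=
      (Set.finite_range _).union (Set.finite_range _)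
    exact hf.isCompact_convexHull ℝ
  · refine ⟨0, ?_⟩
    rw [mem_interior]
    refine ⟨{x | ∑ i, |x i| < 1}, ?_, ?_, by simp⟩
    · rw [std_eq hd]
      intro x hx
      have hx' : ∑ i, |x i| < 1 := hx
      exact hx'.le
    · exact isOpen_lt (by fun_prop) continuous_const

/-- Upper bound for the cross-polytope. -/
theorem upper {n : ℕ} {p : Fin (n + 1) → ℝ} (hp : ((p +ᵥ std (n + 1)) ∩ std (n + 1)).Nonempty) :
    massVol (relBall (std (n + 1))) (convexHull ℝ (std (n + 1) ∪ (p +ᵥ std (n + 1)))) ≤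
      ENNReal.ofReal ((n + 2) * 2 ^ (n + 1) / (n + 1).factorial) := by
  have hb := std_body (Nat.succ_pos n)
  have hneg : ∀ x ∈ std (n + 1), -x ∈ std (n + 1) := by
    intro x hx
    rw [std_eq (Nat.succ_pos n)] at hx ⊢
    simpa using hx
  have h1 : std (n + 1) ⊆ relBall (std (n + 1)) := by
    intro x hx
    refine ⟨x - (-x), ⟨x, hx, -x, hneg x hx, rfl⟩, ?_⟩
    show (1 / 2 : ℝ) • (x - (-x)) = x
    module
  have h2 : volume (std (n + 1)) ≤ maxCross (relBall (std (n + 1))) :=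
    le_iSup_of_le 0 (le_iSup_of_le _ (le_iSup_of_le h1 le_rfl))
  have h3 := hull_le hb.isCompact hb.convex hp
  have h0 : volume (std (n + 1)) ≠ 0 :=
    (Measure.measure_pos_of_nonempty_interior volume hb.interior_nonempty).ne'
  have htop : volume (std (n + 1)) ≠ ⊤ := hb.isCompact.measure_lt_top.ne
  unfold massVol
  calc ENNReal.ofReal (2 ^ (n + 1) / (n + 1).factorial) / maxCross (relBall (std (n + 1))) *
        volume (convexHull ℝ (std (n + 1) ∪ (p +ᵥ std (n + 1))))
      ≤ ENNReal.ofReal (2 ^ (n + 1) / (n + 1).factorial) / volume (std (n + 1)) *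
        (ENNReal.ofReal (n + 2) * volume (std (n + 1))) := by gcongr
    _ = ENNReal.ofReal (2 ^ (n + 1) / (n + 1).factorial) * ENNReal.ofReal (n + 2) *
        ((volume (std (n + 1)))⁻¹ * volume (std (n + 1))) := by
        rw [div_eq_mul_inv]; ring
    _ = ENNReal.ofReal ((n + 2) * 2 ^ (n + 1) / (n + 1).factorial) := by
        rw [ENNReal.inv_mul_cancel h0 htop, mul_one, ← ENNReal.ofReal_mul (by positivity)]
        congr 1
        ring

/-- The normalisation is meaningful: a cross-polytope of maximal volume inscribed in the relative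
unit ball exists, and its volume is positive and finite. -/
theorem maxCross_attained {d : ℕ} (hd : 1 ≤ d) {K : Set (Fin d → ℝ)} (hK : IsConvexBody K) :
    ∃ v : Fin d → Fin d → ℝ, crossPolytope 0 v ⊆ relBall K ∧
      volume (crossPolytope 0 v) = maxCross (relBall K) ∧
      maxCross (relBall K) ≠ 0 ∧ maxCross (relBall K) ≠ ⊤ := by
  obtain ⟨v, hv, hpos, hmax⟩ := exists_max hK
  refine ⟨v, cross_sub hK.convex hv, by rw [vol_cross, hmax], ?_, ?_⟩
  · rw [hmax]
    refine mul_ne_zero ?_ (Measure.measure_pos_of_nonempty_interior volume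
      (std_body hd).interior_nonempty).ne'
    rw [Ne, ENNReal.ofReal_eq_zero, not_le]
    exact hpos
  · rw [hmax]
    exact ENNReal.mul_ne_top ENNReal.ofReal_ne_top (std_body hd).isCompact.measure_lt_top.ne

/-- For every `d ≥ 1` the least value of `cTr K` over all convex bodies `K` in `ℝ ^ d` is
`(d + 1) * 2 ^ d / d!`; it is attained by the standard cross-polytope, and for every convex body
some single translation gives at least this value. -/
theorem result (d : ℕ) (hd : 1 ≤ d) :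
    IsLeast {c : ENNReal | ∃ K : Set (Fin d → ℝ), IsConvexBody K ∧ cTr K = c}
      (ENNReal.ofReal ((d + 1) * 2 ^ d / d.factorial)) ∧
    (IsConvexBody (std d) ∧ cTr (std d) = ENNReal.ofReal ((d + 1) * 2 ^ d / d.factorial)) ∧
    ∀ K : Set (Fin d → ℝ), IsConvexBody K → ∃ p : Fin d → ℝ, ((p +ᵥ K) ∩ K).Nonempty ∧
      ENNReal.ofReal ((d + 1) * 2 ^ d / d.factorial) ≤
        massVol (relBall K) (convexHull ℝ (K ∪ (p +ᵥ K))) := by
  obtain ⟨n, rfl⟩ : ∃ n, d = n + 1 := ⟨d - 1, by omega⟩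
  have hc : ENNReal.ofReal ((((n + 1 : ℕ) : ℝ) + 1) * 2 ^ (n + 1) / (n + 1).factorial) =
      ENNReal.ofReal ((n + 2) * 2 ^ (n + 1) / (n + 1).factorial) := by
    congr 3
    push_cast
    ring
  rw [hc]
  have hlow : ∀ K : Set (Fin (n + 1) → ℝ), IsConvexBody K →
      ENNReal.ofReal ((n + 2) * 2 ^ (n + 1) / (n + 1).factorial) ≤ cTr K := by
    intro K hK
    obtain ⟨p, hp, h⟩ := lower hK
    exact le_iSup_of_le p (le_iSup_of_le hp h)
  have hstd : cTr (std (n + 1)) = ENNReal.ofReal ((n + 2) * 2 ^ (n + 1) / (n + 1).factorial) :=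
    le_antisymm (iSup_le fun p => iSup_le fun hp => upper hp) (hlow _ (std_body hd))
  refine ⟨⟨⟨std (n + 1), std_body hd, hstd⟩, ?_⟩, ⟨std_body hd, hstd⟩, fun K hK => lower hK⟩
  rintro c ⟨K, hK, rfl⟩
  exact hlow K hK

end Pool.Agent.Results.MP_87489e_co.MassMin
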